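import Pool.Agent.R973.Pin.Model
import Pool.Agent.R973.Pin.End

/-!
# The critical curve of random pinning at a selective interface is infinite at its endpoint
-/

set_option autoImplicit false

open MeasureTheory Filter Topology

namespace Pool.Agent.Results.MP_11b949_pr.InfiniteAtEndpoint

open Pool.Agent.R973.Pinning

/-- Let `s ≥ 0`, let `ν` be a law with mean `0`, let `f` be the quenched free energy and let
`lc > 0` be such that `h_c(λ) = ∞` for every `λ > lc` (the threshold `λ_c(s)` has this property).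
If `E exp(t₀ η) < ∞` for some `t₀ > lc * s`, then at `λ = lc` the model is localized for every
`h ≥ 0`, that is, `h_c(lc) = ∞`. -/
theorem result (ν : Measure ℝ) [IsProbabilityMeasure ν] (hint : Integrable (fun u => u) ν)
    (_hmean : ∫ u, u ∂ν = 0) (s : ℝ) (hs : 0 ≤ s) (f : ℝ → ℝ → ℝ) (hf : IsFreeEnergy ν s f)
    (lc : ℝ) (hlc : 0 < lc) (hthr : ∀ lam : ℝ, lc < lam → hc f lam = ⊤)
    (t₀ : ℝ) (ht₀ : lc * s < t₀) (hexp : Integrable (fun u => Real.exp (t₀ * u)) ν) :
    (∀ h : ℝ, 0 ≤ h → h < f lc h) ∧ hc f lc = ⊤ := by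
  have hkey : ∀ h : ℝ, 0 ≤ h → h < f lc h := by
    intro h hh
    refine Pool.Agent.R973.Pin.endpoint ν hs hf hlc ht₀ hint hexp ?_ hh
    intro lam hlam h' hh' heq
    have h1 := hthr lam hlam
    have h2 : hc f lam ≤ (h' : EReal) := sInf_le ⟨h', hh', heq, rfl⟩
    rw [h1, top_le_iff] at h2
    exact EReal.coe_ne_top h' h2
  refine ⟨hkey, ?_⟩
  have h1 : {e : EReal | ∃ h : ℝ, 0 ≤ h ∧ f lc h = h ∧ e = (h : EReal)} = ∅ := by
    ext e
    simp only [Set.mem_ofPred_eq, Set.mem_empty_iff_false, iff_false]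
    rintro ⟨h, hh, heq, _⟩
    exact absurd heq (hkey h hh).ne'
  unfold hc
  rw [h1, sInf_empty]

end Pool.Agent.Results.MP_11b949_pr.InfiniteAtEndpoint
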